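import Mathlib
import Pool.Agent.Helper11.Can.Defs

/-!
CAN-L11 (MP_5f0950_ag): from contractions by forms to determinants.
-/

universe u

open Finset Matrix

namespace Pool.Agent.Helper11.Can

open Pool.Agent.Helper10.GIT Pool.Agent.Helper11.GIT

variable {P : ℕ} {d : Fin P → ℕ}

namespace L11

theorem sum_perm_ent {R : Type*} [CommRing R] (c : Fin P) (M : Matrix (Fin (d c)) (Fin (d c)) R)
    (l l' : Fin (d c) → Let d) :
    ∑ π : Equiv.Perm (Fin (d c)), ((Equiv.Perm.sign π : ℤ) : R) * ∏ i, ent c M (l (π i)) (l' i) =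
      eps' c l * M.det * eps' c l' := by
  have h1 : (Matrix.of fun i j => ent c M (l i) (l' j)) =
      (Matrix.of fun i j => if l i = ⟨c, j⟩ then (1 : R) else 0) * M *
        (Matrix.of fun i j => if l' i = ⟨c, j⟩ then (1 : R) else 0)ᵀ := by
    ext i j
    rw [Matrix.of_apply, ent, Matrix.mul_apply]
    rw [Finset.sum_comm]
    refine Finset.sum_congr rfl fun b _ => ?_
    rw [Matrix.mul_apply, Finset.sum_mul]
    refine Finset.sum_congr rfl fun a _ => ?_
    rw [Matrix.transpose_apply, Matrix.of_apply, Matrix.of_apply]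
    ring
  have h2 := congrArg Matrix.det h1
  rw [Matrix.det_mul, Matrix.det_mul, Matrix.det_transpose] at h2
  unfold eps'
  rw [← h2, Matrix.det_apply']
  rfl

/-- the two copies of the tuple of words -/
def dbl {I : Type} (χ : I → Shape P) : I ⊕ I → Shape P := fun r => match r with
  | Sum.inl r => χ r
  | Sum.inr r => χ r

/-- the doubled tuple of tensors -/
def dblz {R : Type*} {I : Type} {χ : I → Shape P} (z : ∀ r, Ten d R (χ r)) :
    ∀ r, Ten d R (dbl χ r) := fun r => match r with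
  | Sum.inl r => z r
  | Sum.inr r => z r

/-- positions of the doubled tuple -/
def posE {I : Type} (χ : I → Shape P) : Pos χ ⊕ Pos χ ≃ Pos (dbl χ) where
  toFun q := match q with
    | Sum.inl q => ⟨Sum.inl q.1, q.2⟩
    | Sum.inr q => ⟨Sum.inr q.1, q.2⟩
  invFun q := match q with
    | ⟨Sum.inl r, j⟩ => Sum.inl ⟨r, j⟩
    | ⟨Sum.inr r, j⟩ => Sum.inr ⟨r, j⟩
  left_inv q := by rcases q with q | q <;> rfl
  right_inv q := by rcases q with ⟨r | r, j⟩ <;> rfl

/-- two copies -/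
def twoE (X : Type) : X × Fin 2 ≃ X ⊕ X where
  toFun q := if q.2 = 0 then Sum.inl q.1 else Sum.inr q.1
  invFun q := match q with
    | Sum.inl x => (x, 0)
    | Sum.inr x => (x, 1)
  left_inv q := by
    rcases q with ⟨x, j⟩
    fin_cases j <;> rfl
  right_inv q := by rcases q with x | x <;> rfl

/-- words of the doubled tuple -/
def wordE {I : Type} (χ : I → Shape P) :
    (∀ r, Word d (χ r)) × (∀ r, Word d (χ r)) ≃ (∀ r, Word d (dbl χ r)) where
  toFun W := fun r => match r with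
    | Sum.inl r => W.1 r
    | Sum.inr r => W.2 r
  invFun W := (fun r => W (Sum.inl r), fun r => W (Sum.inr r))
  left_inv W := rfl
  right_inv W := by
    funext r
    rcases r with r | r <;> rfl

/-- the matching of the doubled tuple -/
def sg {I : Type} {χ : I → Shape P} {S : Type} {cl : S → Fin P}
    (σ : (Σ x : S, Fin (d (cl x))) ≃ Pos χ) (π : ∀ x : S, Equiv.Perm (Fin (d (cl x)))) :
    (Σ x : S, Fin (d (cl x))) × Fin 2 ≃ Pos (dbl χ) :=
  (twoE _).trans ((Equiv.sumCongr ((Equiv.sigmaCongrRight π).trans σ) σ).trans (posE χ))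

theorem ltp_sg0 {I : Type} {χ : I → Shape P} {S : Type} {cl : S → Fin P}
    (σ : (Σ x : S, Fin (d (cl x))) ≃ Pos χ) (π : ∀ x : S, Equiv.Perm (Fin (d (cl x))))
    (W : (∀ r, Word d (χ r)) × (∀ r, Word d (χ r))) (p : Σ x : S, Fin (d (cl x))) :
    ltp (wordE χ W) (sg σ π (p, 0)) = ltp W.1 (σ ⟨p.1, π p.1 p.2⟩) := rfl

theorem ltp_sg1 {I : Type} {χ : I → Shape P} {S : Type} {cl : S → Fin P}
    (σ : (Σ x : S, Fin (d (cl x))) ≃ Pos χ) (π : ∀ x : S, Equiv.Perm (Fin (d (cl x))))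
    (W : (∀ r, Word d (χ r)) × (∀ r, Word d (χ r))) (p : Σ x : S, Fin (d (cl x))) :
    ltp (wordE χ W) (sg σ π (p, 1)) = ltp W.2 (σ p) := rfl

theorem sum_pform {R : Type*} [CommRing R] (B : Mats d R) {I : Type} [Fintype I]
    {χ : I → Shape P} {S : Type} [Fintype S] (cl : S → Fin P)
    (σ : (Σ x : S, Fin (d (cl x))) ≃ Pos χ) (z : ∀ r, Ten d R (χ r)) [DecidableEq S] :
    ∑ π : ∀ x : S, Equiv.Perm (Fin (d (cl x))), (∏ x, ((Equiv.Perm.sign (π x) : ℤ) : R)) *
      pform B (fun p : Σ x : S, Fin (d (cl x)) => cl p.1) (sg σ π) (dblz z) =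
      (∏ x, (B (cl x)).det) * dform cl σ z ^ 2 := by
  classical
  have hp : ∀ π : ∀ x : S, Equiv.Perm (Fin (d (cl x))),
      pform B (fun p : Σ x : S, Fin (d (cl x)) => cl p.1) (sg σ π) (dblz z) =
      ∑ W : (∀ r, Word d (χ r)) × (∀ r, Word d (χ r)),
        (∏ x, ∏ i, ent (cl x) (B (cl x)) (ltp W.1 (σ ⟨x, π x i⟩)) (ltp W.2 (σ ⟨x, i⟩))) *
          ((∏ r, z r (W.1 r)) * ∏ r, z r (W.2 r)) := by
    intro π
    unfold pform
    symm
    refine Finset.sum_equiv (wordE χ) (fun W => by simp only [Finset.mem_univ]) (fun W _ => ?_)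
    rw [Fintype.prod_sigma, Fintype.prod_sum_type]
    rfl
  simp_rw [hp, Finset.mul_sum]
  rw [Finset.sum_comm]
  have hW : ∀ W : (∀ r, Word d (χ r)) × (∀ r, Word d (χ r)),
      ∑ π : ∀ x : S, Equiv.Perm (Fin (d (cl x))), (∏ x, ((Equiv.Perm.sign (π x) : ℤ) : R)) *
        ((∏ x, ∏ i, ent (cl x) (B (cl x)) (ltp W.1 (σ ⟨x, π x i⟩)) (ltp W.2 (σ ⟨x, i⟩))) *
          ((∏ r, z r (W.1 r)) * ∏ r, z r (W.2 r))) =
      (∏ x, (B (cl x)).det) * (((∏ x, eps' (cl x) fun i => ltp W.1 (σ ⟨x, i⟩)) *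
        ∏ r, z r (W.1 r)) * ((∏ x, eps' (cl x) fun i => ltp W.2 (σ ⟨x, i⟩)) *
        ∏ r, z r (W.2 r))) := by
    intro W
    have h1 : ∀ π : ∀ x : S, Equiv.Perm (Fin (d (cl x))),
        (∏ x, ((Equiv.Perm.sign (π x) : ℤ) : R)) *
        ((∏ x, ∏ i, ent (cl x) (B (cl x)) (ltp W.1 (σ ⟨x, π x i⟩)) (ltp W.2 (σ ⟨x, i⟩))) *
          ((∏ r, z r (W.1 r)) * ∏ r, z r (W.2 r))) =
        (∏ x, ((Equiv.Perm.sign (π x) : ℤ) : R) *
          ∏ i, ent (cl x) (B (cl x)) (ltp W.1 (σ ⟨x, π x i⟩)) (ltp W.2 (σ ⟨x, i⟩))) *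
          ((∏ r, z r (W.1 r)) * ∏ r, z r (W.2 r)) := by
      intro π
      rw [Finset.prod_mul_distrib, mul_assoc]
    rw [Finset.sum_congr rfl fun π _ => h1 π, ← Finset.sum_mul]
    have h2 := Finset.prod_univ_sum (fun x : S => (Finset.univ : Finset (Equiv.Perm (Fin (d (cl x))))))
      (fun x (π : Equiv.Perm (Fin (d (cl x)))) => ((Equiv.Perm.sign π : ℤ) : R) *
          ∏ i, ent (cl x) (B (cl x)) (ltp W.1 (σ ⟨x, π i⟩)) (ltp W.2 (σ ⟨x, i⟩)))
    rw [Fintype.piFinset_univ] at h2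
    rw [← h2]
    have h3 : ∀ x : S, ∑ π : Equiv.Perm (Fin (d (cl x))), ((Equiv.Perm.sign π : ℤ) : R) *
          ∏ i, ent (cl x) (B (cl x)) (ltp W.1 (σ ⟨x, π i⟩)) (ltp W.2 (σ ⟨x, i⟩)) =
        (eps' (cl x) fun i => ltp W.1 (σ ⟨x, i⟩)) * (B (cl x)).det *
          (eps' (cl x) fun i => ltp W.2 (σ ⟨x, i⟩)) := fun x =>
      sum_perm_ent (cl x) (B (cl x)) (fun i => ltp W.1 (σ ⟨x, i⟩)) (fun i => ltp W.2 (σ ⟨x, i⟩))
    rw [Finset.prod_congr rfl fun x _ => h3 x, Finset.prod_mul_distrib, Finset.prod_mul_distrib]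
    ring
  rw [Finset.sum_congr rfl fun W _ => hW W, ← Finset.mul_sum, Fintype.sum_prod_type]
  unfold dform
  rw [pow_two, Finset.sum_mul_sum]

end L11

/-- CAN-L11: from contractions to determinants. (The square of `dform cl σ z` is, up to the factor
`∏ det (B (cl x))`, an alternating sum of `pform`s of the doubled family `z, z`, indexed by
`I ⊕ I`: `eps' c l * eps' c l' * det M = ∑ π, sign π * ∏ i, ent c M (l (π i)) (l' i)`,
since the left side is the determinant of `E * M * E'ᵀ`.) -/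
theorem dZero_of_pZero {Ω : Type u} [Field Ω] {A N : Family d Ω} (B : Mats d Ω)
    (hB : ∀ c, (B c).det ≠ 0) (h : PZero B A N) : DZero A N := by
  classical
  intro I _ χ S _ cl σ z hz hN
  have h1 := L11.sum_pform B cl σ z
  have h2 : ∀ π : ∀ x : S, Equiv.Perm (Fin (d (cl x))),
      pform B (fun p : Σ x : S, Fin (d (cl x)) => cl p.1) (L11.sg σ π) (L11.dblz z) = 0 := by
    intro π
    apply h
    · intro r
      rcases r with r | r
      · exact hz r
      · exact hz r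
    · obtain ⟨r, hr⟩ := hN
      exact ⟨Sum.inl r, hr⟩
  rw [Finset.sum_eq_zero (fun π _ => by rw [h2 π, mul_zero])] at h1
  have h3 : (∏ x, (B (cl x)).det) ≠ 0 := Finset.prod_ne_zero_iff.2 fun x _ => hB _
  have h4 := (mul_eq_zero.1 h1.symm).resolve_left h3
  exact pow_eq_zero_iff (two_ne_zero) |>.1 h4

end Pool.Agent.Helper11.Can
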